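import Mathlib
import Pool.Agent.Q7.QuatHamPhi

/-!
# Nonstandard involutions: every invariant `(HA, φ)`-neutral subspace extends to invariant maximal
`(HA, φ)`-nonnegative and nonpositive subspaces
-/

set_option autoImplicit false

namespace Pool.Agent.Results.MP_64d585_al.ExtendNeutral

open Quaternion Matrix Q7.QuatHam

/-- Let `φ` be a nonstandard involution, `β` a quaternion with `φ β = -β` and `|β| = 1`, `H` an
invertible `φ`-hermitian matrix and `A` an `(H, φ)`-skewsymmetric matrix. Then every `A`-invariant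
`(HA, φ)`-neutral subspace `N` is contained in an `A`-invariant maximal `(HA, φ)`-nonnegative
subspace and in an `A`-invariant maximal `(HA, φ)`-nonpositive subspace. -/
theorem result (n : ℕ) (φ : ℍ[ℝ] →ₗ[ℝ] ℍ[ℝ]) (hφ : IsNonstandardInvolution φ) (β : ℍ[ℝ])
    (hβ : φ β = -β) (hβ1 : ‖β‖ = 1) (H A : Matrix (Fin n) (Fin n) ℍ[ℝ]) (_ : IsUnit H)
    (hH : Hᵀ.map φ = H) (hA : H * A = -(Aᵀ.map φ * H))
    (N : Submodule ℍ[ℝ]ᵐᵒᵖ (Fin n → ℍ[ℝ])) (hN : IsInvariant A N)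
    (hN0 : IsNeutral (phiForm φ (H * A)) N) :
    (∃ L, N ≤ L ∧ IsInvariant A L ∧ IsMaxNonneg (fun x y => β⁻¹ * phiForm φ (H * A) x y) L) ∧
      ∃ L, N ≤ L ∧ IsInvariant A L ∧ IsMaxNonpos (fun x y => β⁻¹ * phiForm φ (H * A) x y) L := by
  obtain ⟨h1, h2⟩ := setting_of hφ hβ hβ1 hH hA
  have h3 : (fun x y => β⁻¹ * phiForm φ (H * A) x y) = starForm ((β⁻¹ • H) * A) := by
    ext1 x
    ext1 y
    exact phiForm_eq hφ hβ hβ1 H A x y
  have h4 : IsNeutral (starForm ((β⁻¹ • H) * A)) N := by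
    intro x hx y hy
    rw [← phiForm_eq hφ hβ hβ1, hN0 x hx y hy, mul_zero]
  rw [h3]
  exact q1 h1 h2 hN h4

end Pool.Agent.Results.MP_64d585_al.ExtendNeutral
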