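import Mathlib
import Pool.Agent.Q7.QuatHamPhi

/-!
# Nonstandard involutions: extension of invariant `(HA, φ)`-neutral subspaces with prescribed
eigenvalues off the imaginary axis
-/

set_option autoImplicit false

namespace Pool.Agent.Results.MP_64d585_al.ExtendSpectrum

open Quaternion Matrix Q7.QuatHam

/-- Let `φ` be a nonstandard involution, `β` a quaternion with `φ β = -β` and `|β| = 1`, `H` an
invertible `φ`-hermitian matrix, `A` an `(H, φ)`-skewsymmetric matrix, and `N` an `A`-invariant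
`(HA, φ)`-neutral subspace such that the set `S₀` of eigenvalues of `A|N` with nonzero real part
contains no two opposite quaternions. Then for every c-set `S ⊇ S₀` of `A` there are `A`-invariant
subspaces `L₊, L₋ ⊇ N`, maximal `(HA, φ)`-nonnegative and maximal `(HA, φ)`-nonpositive
respectively, such that `S` is exactly the set of eigenvalues of `A|L₊` (of `A|L₋`) with nonzero
real part. -/
theorem result (n : ℕ) (φ : ℍ[ℝ] →ₗ[ℝ] ℍ[ℝ]) (hφ : IsNonstandardInvolution φ) (β : ℍ[ℝ])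
    (hβ : φ β = -β) (hβ1 : ‖β‖ = 1) (H A : Matrix (Fin n) (Fin n) ℍ[ℝ]) (hHu : IsUnit H)
    (hH : Hᵀ.map φ = H) (hA : H * A = -(Aᵀ.map φ * H))
    (N : Submodule ℍ[ℝ]ᵐᵒᵖ (Fin n → ℍ[ℝ])) (hN : IsInvariant A N)
    (hN0 : IsNeutral (phiForm φ (H * A)) N)
    (_ : ∀ l ∈ offAxisEigenvalues A N, -l ∉ offAxisEigenvalues A N)
    (S : Set ℍ[ℝ]) (hS : IsCSet A S) (hS0 : offAxisEigenvalues A N ⊆ S) :
    (∃ L, N ≤ L ∧ IsInvariant A L ∧ IsMaxNonneg (fun x y => β⁻¹ * phiForm φ (H * A) x y) L ∧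
      offAxisEigenvalues A L = S) ∧
      ∃ L, N ≤ L ∧ IsInvariant A L ∧ IsMaxNonpos (fun x y => β⁻¹ * phiForm φ (H * A) x y) L ∧
        offAxisEigenvalues A L = S := by
  obtain ⟨h1, h2⟩ := setting_of hφ hβ hβ1 hH hA
  have h3 : (fun x y => β⁻¹ * phiForm φ (H * A) x y) = starForm ((β⁻¹ • H) * A) := by
    ext1 x
    ext1 y
    exact phiForm_eq hφ hβ hβ1 H A x y
  have h4 : IsNeutral (starForm ((β⁻¹ • H) * A)) N := by
    intro x hx y hy
    rw [← phiForm_eq hφ hβ hβ1, hN0 x hx y hy, mul_zero]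
  have hβ0 : β ≠ 0 := by
    rintro rfl
    rw [norm_zero] at hβ1
    exact zero_ne_one hβ1
  rw [h3]
  exact q2 (isUnit_smul hβ0 hHu) h1 h2 hN h4 hS hS0

end Pool.Agent.Results.MP_64d585_al.ExtendSpectrum
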